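import Pool.Agent.helper73.TF.Spec
import Pool.Agent.helper54.UG.Basic

/-!
# MP_a2a22c_al, row tf:IRR: the orbit of a complex line under a Zariski dense subgroup is infinite
-/

set_option autoImplicit false

namespace Pool.Agent.TF

open Matrix Pool.Agent.H48SL
open scoped Pointwise

/-- complex polynomial functions vanishing on a Zariski dense subgroup vanish -/
theorem IRR_dense {n : ℕ} {H : Subgroup (SLZ n)} (hD : ZDense H) (P : MvPolynomial (Fin n × Fin n) ℂ)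
    (h : ∀ g ∈ H, MvPolynomial.eval (fun u : Fin n × Fin n => cm g u.1 u.2) P = 0) (g : SLZ n) :
    MvPolynomial.eval (fun u : Fin n × Fin n => cm g u.1 u.2) P = 0 := by
  rw [← Module.forall_dual_apply_eq_zero_iff ℚ]
  intro φ
  have key : ∀ g : SLZ n, φ (MvPolynomial.eval (fun u : Fin n × Fin n => cm g u.1 u.2) P) =
      MvPolynomial.eval (fun u : Fin n × Fin n => Pool.Agent.UG.qg g u.1 u.2)
        (∑ m ∈ P.support, MvPolynomial.monomial m (φ (P.coeff m))) := by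
    intro g
    rw [MvPolynomial.eval_eq', map_sum, map_sum]
    refine Finset.sum_congr rfl fun m _ => ?_
    rw [MvPolynomial.eval_monomial]
    have h1 : (∏ i : Fin n × Fin n, cm g i.1 i.2 ^ m i) =
        ((∏ i : Fin n × Fin n, (g : Matrix (Fin n) (Fin n) ℤ) i.1 i.2 ^ m i : ℤ) : ℂ) := by
      push_cast
      rfl
    have h2 : (m.prod fun (i : Fin n × Fin n) (e : ℕ) => Pool.Agent.UG.qg g i.1 i.2 ^ e) =
        ((∏ i : Fin n × Fin n, (g : Matrix (Fin n) (Fin n) ℤ) i.1 i.2 ^ m i : ℤ) : ℚ) := by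
      rw [Finsupp.prod_fintype _ _ (fun i => pow_zero _)]
      push_cast
      rfl
    rw [h1, h2]
    have h3 : P.coeff m * ((∏ i : Fin n × Fin n, (g : Matrix (Fin n) (Fin n) ℤ) i.1 i.2 ^ m i : ℤ) : ℂ) =
        (∏ i : Fin n × Fin n, (g : Matrix (Fin n) (Fin n) ℤ) i.1 i.2 ^ m i : ℤ) • P.coeff m := by
      rw [zsmul_eq_mul]
      ring
    rw [h3, map_zsmul, zsmul_eq_mul]
    ring
  rw [key]
  refine Pool.Agent.UG.IsPolyQ.dense hD (F := fun g => MvPolynomial.eval (fun u : Fin n × Fin n =>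
    Pool.Agent.UG.qg g u.1 u.2) (∑ m ∈ P.support, MvPolynomial.monomial m (φ (P.coeff m)))) ⟨_, fun _ => rfl⟩ ?_ g
  intro x hx
  show MvPolynomial.eval (fun u : Fin n × Fin n =>
    Pool.Agent.UG.qg x u.1 u.2) (∑ m ∈ P.support, MvPolynomial.monomial m (φ (P.coeff m))) = 0
  rw [← key, h x hx, map_zero]

theorem IRR_cm {n : ℕ} (g : SLZ n) : cm g = (Int.castRingHom ℂ).mapMatrix (g : Matrix (Fin n) (Fin n) ℤ) := rfl

theorem IRR_cm_mul {n : ℕ} (g h : SLZ n) : cm (g * h) = cm g * cm h := by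
  rw [IRR_cm, IRR_cm g, IRR_cm h, ← map_mul]
  rfl

theorem IRR_cm_one {n : ℕ} : cm (1 : SLZ n) = 1 := by
  rw [IRR_cm]
  exact map_one (Int.castRingHom ℂ).mapMatrix

theorem IRR_ne {n : ℕ} (g : SLZ n) {x : Fin n → ℂ} (hx : x ≠ 0) : cm g *ᵥ x ≠ 0 := by
  intro h
  apply hx
  have h1 : cm g⁻¹ *ᵥ (cm g *ᵥ x) = x := by
    rw [Matrix.mulVec_mulVec, ← IRR_cm_mul, inv_mul_cancel, IRR_cm_one, Matrix.one_mulVec]
  rw [← h1, h, Matrix.mulVec_zero]

/-- the elementary matrices `1 + k E_{jb}` -/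
def IRR_el {n : ℕ} (j b : Fin n) (h : j ≠ b) (k : ℤ) : SLZ n :=
  ⟨Matrix.transvection j b k, Matrix.det_transvection_of_ne j b h k⟩

theorem IRR_el_apply {n : ℕ} (j b : Fin n) (h : j ≠ b) (k : ℤ) (x : Fin n → ℂ) (i : Fin n) :
    (cm (IRR_el j b h k) *ᵥ x) i = x i + if i = j then k * x b else 0 := by
  have h1 : cm (IRR_el j b h k) = 1 + Matrix.single j b (k : ℂ) := by
    ext u v
    simp only [cm, IRR_el, Matrix.transvection, Matrix.map_apply, Matrix.add_apply, Int.cast_add]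
    congr 1
    · by_cases huv : u = v
      · subst huv; simp
      · simp [huv]
    · simp only [Matrix.single, Matrix.of_apply]
      split_ifs <;> simp
  rw [h1, Matrix.add_mulVec, Matrix.one_mulVec, Pi.add_apply]
  congr 1
  rw [Matrix.single_mulVec]
  by_cases hij : i = j
  · subst hij; simp
  · simp [hij]

theorem IRR (hPRC : PRC_stmt) : IRR_stmt := by
  intro n hn H hD x hx hfin
  obtain ⟨-, hsc, hinj⟩ := hPRC n
  classical
  have hne0 : Nonempty (Fin n) := ⟨⟨0, by omega⟩⟩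
  set O : Set (Matrix (Fin n) (Fin n) ℂ) := {M | ∃ g ∈ H, M = pr (cm g *ᵥ x)} with hO
  have hOmem : ∀ M ∈ O, ∃ g : SLZ n, g ∈ H ∧ M = pr (cm g *ᵥ x) := fun M hM => hM
  choose! γ hγ using hOmem
  -- the claim for all of `SL(n, ℤ)`
  have claim : ∀ g : SLZ n, ∃ M ∈ O, ∀ j l : Fin n,
      (cm g *ᵥ x) j * (cm (γ M) *ᵥ x) l = (cm g *ᵥ x) l * (cm (γ M) *ᵥ x) j := by
    by_contra hcon
    push Not at hcon
    obtain ⟨g, hg⟩ := hcon
    choose! J L hJL using hg
    set P : MvPolynomial (Fin n × Fin n) ℂ := ∏ M ∈ hfin.toFinset,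
      ((∑ a, MvPolynomial.X (J M, a) * MvPolynomial.C (x a)) * MvPolynomial.C ((cm (γ M) *ᵥ x) (L M)) -
        (∑ a, MvPolynomial.X (L M, a) * MvPolynomial.C (x a)) * MvPolynomial.C ((cm (γ M) *ᵥ x) (J M))) with hP
    have hev : ∀ h : SLZ n, MvPolynomial.eval (fun u : Fin n × Fin n => cm h u.1 u.2) P =
        ∏ M ∈ hfin.toFinset, ((cm h *ᵥ x) (J M) * (cm (γ M) *ᵥ x) (L M) -
          (cm h *ᵥ x) (L M) * (cm (γ M) *ᵥ x) (J M)) := by
      intro h
      rw [hP, map_prod]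
      refine Finset.prod_congr rfl fun M _ => ?_
      simp only [map_sub, map_mul, map_sum, MvPolynomial.eval_X, MvPolynomial.eval_C]
      rfl
    have h0 := IRR_dense hD P (by
      intro h hh
      rw [hev]
      have hM : pr (cm h *ᵥ x) ∈ O := ⟨h, hh, rfl⟩
      apply Finset.prod_eq_zero (hfin.mem_toFinset.2 hM)
      obtain ⟨c, hc, hc2⟩ := hinj (cm h *ᵥ x) (cm (γ (pr (cm h *ᵥ x))) *ᵥ x) (IRR_ne _ hx) (IRR_ne _ hx)
        (hγ _ hM).2
      rw [hc2, Pi.smul_apply, Pi.smul_apply, smul_eq_mul, smul_eq_mul]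
      ring) g
    rw [hev, Finset.prod_eq_zero_iff] at h0
    obtain ⟨M, hM, h1⟩ := h0
    exact hJL M (hfin.mem_toFinset.1 hM) (sub_eq_zero.1 h1)
  have all : ∀ g : SLZ n, pr (cm g *ᵥ x) ∈ O := by
    intro g
    obtain ⟨M, hM, h1⟩ := claim g
    have hy : cm (γ M) *ᵥ x ≠ 0 := IRR_ne _ hx
    obtain ⟨l, hl⟩ := Function.ne_iff.1 hy
    rw [Pi.zero_apply] at hl
    have h2 : cm g *ᵥ x = ((cm g *ᵥ x) l / (cm (γ M) *ᵥ x) l) • (cm (γ M) *ᵥ x) := by
      ext j
      rw [Pi.smul_apply, smul_eq_mul, div_mul_eq_mul_div, eq_div_iff hl]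
      exact h1 j l
    have h3 : (cm g *ᵥ x) l / (cm (γ M) *ᵥ x) l ≠ 0 := by
      intro h4
      rw [h4, zero_smul] at h2
      exact IRR_ne g hx h2
    rw [h2, hsc _ _ h3, ← (hγ M hM).2]
    exact hM
  -- infinitely many lines
  obtain ⟨b, hb⟩ := Function.ne_iff.1 hx
  rw [Pi.zero_apply] at hb
  have hnt : Nontrivial (Fin n) := Fin.nontrivial_iff_two_le.2 hn
  obtain ⟨j, hj⟩ := exists_ne b
  have hinf : Function.Injective fun k : ℕ => pr (cm (IRR_el j b hj (k : ℤ)) *ᵥ x) := by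
    intro k k' hk
    obtain ⟨c, hc, hc2⟩ := hinj _ _ (IRR_ne _ hx) (IRR_ne _ hx) hk
    have h1 := congrFun hc2 b
    have h2 := congrFun hc2 j
    rw [Pi.smul_apply, smul_eq_mul, IRR_el_apply, IRR_el_apply, if_neg hj.symm, if_neg hj.symm, add_zero] at h1
    rw [Pi.smul_apply, smul_eq_mul, IRR_el_apply, IRR_el_apply, if_pos rfl, if_pos rfl] at h2
    have h3 : c = 1 := by
      have h4 : (c - 1) * x b = 0 := by linear_combination -h1
      rcases mul_eq_zero.1 h4 with h5 | h5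
      · exact sub_eq_zero.1 h5
      · exact absurd h5 hb
    rw [h3, one_mul] at h2
    have h6 : ((k' : ℂ) - k) * x b = 0 := by
      push_cast at h2
      linear_combination h2
    rcases mul_eq_zero.1 h6 with h5 | h5
    · have : (k' : ℂ) = k := sub_eq_zero.1 h5
      exact_mod_cast this.symm
    · exact absurd h5 hb
  exact Set.infinite_of_injective_forall_mem hinf (fun k => all _) hfin

end Pool.Agent.TF
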